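import Pool.Agent.Y412.LP.Prog

set_option autoImplicit false

/-!
# Progressions in the exceptional set, badly approximable `α`: the final bound
-/

namespace Pool.Agent.Y412.LP

open Filter Topology

/-- For badly approximable `α`, progressions with `C ε ^ (-1 - η)` terms suffice. -/
theorem prog (δ η : ℝ) (hδ : 0 < δ) (hη : 0 < η) :
    ∃ C : ℝ, 0 < C ∧ ∀ (ε : ℝ) (N : ℕ) (α β θ γ : ℝ), 0 < ε → ε ≤ 1 / 2 →
      C * (1 / ε) ^ (1 + η) ≤ N →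
      (∀ᶠ q : ℕ in atTop, δ ≤ (q : ℝ) * |q * α - round (q * α)|) →
      (∀ b : ℕ, 1 ≤ b → ε ^ 2 * b ≤ C → ∀ U V : ℤ, (b : ℝ) * θ ≠ U + V * α) →
      ∃ l : ℕ, l < N ∧ ∃ᶠ q : ℕ in atTop, (q : ℝ) * |q * α - round (q * α)|
        * |(q * (β + l * θ) - γ) - round (q * (β + l * θ) - γ)| < ε := by
  obtain ⟨d, hd1, hdη⟩ : ∃ d : ℕ, 1 ≤ d ∧ 1 / (d:ℝ) ≤ η := by
    refine ⟨⌈1 / η⌉₊, Nat.ceil_pos.2 (by positivity), ?_⟩
    have h1 : 1 / η ≤ ⌈1 / η⌉₊ := Nat.le_ceil _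
    have h2 : (0:ℝ) < ⌈1 / η⌉₊ := lt_of_lt_of_le (by positivity) h1
    rw [div_le_iff₀ h2]
    rw [div_le_iff₀ hη] at h1
    linarith
  obtain ⟨A, hA⟩ := exists_nat_ge (1 / δ)
  set M : ℕ := A + 2 * d with hM
  have hM1 : (1:ℝ) ≤ M := by
    have : 1 ≤ M := by omega
    exact_mod_cast this
  have hdr : (1:ℝ) ≤ d := by exact_mod_cast hd1
  -- the constants
  set C1 : ℝ := (2 * (M:ℝ)) ^ 2 * ((d + 1) * (M:ℝ) ^ d) + 1 with hC1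
  have hC11 : 1 ≤ C1 := by
    have : 0 ≤ (2 * (M:ℝ)) ^ 2 * ((d + 1) * (M:ℝ) ^ d) := by positivity
    linarith
  set C2 : ℝ := 2 * (d * (M:ℝ) ^ (d - 1)) * C1 ^ (1 + η) with hC2
  have hC20 : 0 ≤ C2 := by positivity
  set C : ℝ := (2 * (M:ℝ)) ^ 2 + 2 + C2 + 4 * (M:ℝ) ^ 5 with hC
  refine ⟨C, by positivity, ?_⟩
  intro ε N α β θ γ hε hε2 hN hα hθ
  set X : ℝ := 1 / ε with hX
  have hX2 : 2 ≤ X := by
    rw [hX, le_div_iff₀ hε]; linarith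
  have hX1 : (1:ℝ) ≤ X := by linarith
  have hXη : X ≤ X ^ (1 + η) := by
    calc X = X ^ (1:ℝ) := (Real.rpow_one X).symm
      _ ≤ X ^ (1 + η) := Real.rpow_le_rpow_of_exponent_le hX1 (by linarith)
  have hXη1 : (1:ℝ) ≤ X ^ (1 + η) := by linarith
  set B : ℝ := (2 * (M:ℝ)) ^ 2 / (2 * ε) with hB
  have hBX : B = (2 * (M:ℝ)) ^ 2 / 2 * X := by
    rw [hB, hX]; field_simp
  have hB1 : 1 ≤ B := by
    rw [hBX]
    nlinarith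
  set S' : ℕ := ⌈2 * (B * ((d + 1) * (M:ℝ) ^ d))⌉₊ with hS'
  have hS1 : 2 * (B * ((d + 1) * (M:ℝ) ^ d)) ≤ S' := Nat.le_ceil _
  have hpos : 0 < 2 * (B * ((d + 1) * (M:ℝ) ^ d)) := by positivity
  have hS'1 : 1 ≤ S' := Nat.ceil_pos.2 hpos
  have hS'2 : (S':ℝ) ≤ C1 * X := by
    have h1 : (S':ℝ) < 2 * (B * ((d + 1) * (M:ℝ) ^ d)) + 1 := Nat.ceil_lt_add_one hpos.le
    have h2 : 2 * (B * ((d + 1) * (M:ℝ) ^ d)) = (2 * (M:ℝ)) ^ 2 * ((d + 1) * (M:ℝ) ^ d) * X := by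
      rw [hBX]; ring
    rw [h2] at h1
    rw [hC1, add_mul, one_mul]
    linarith
  have hS'r : (1:ℝ) ≤ S' := by exact_mod_cast hS'1
  set S : ℕ := ⌊(S':ℝ) ^ (1 + 1 / (d:ℝ))⌋₊ with hS
  have hSle : (S:ℝ) ≤ (S':ℝ) ^ (1 + 1 / (d:ℝ)) := Nat.floor_le (by positivity)
  have hSlt : (S':ℝ) ^ (1 + 1 / (d:ℝ)) < (S:ℝ) + 1 := Nat.lt_floor_add_one _
  have hSS : S' ^ (d + 1) < (S + 1) ^ d := by
    have h1 : ((S':ℝ) ^ (1 + 1 / (d:ℝ))) ^ d < ((S:ℝ) + 1) ^ d :=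
      pow_lt_pow_left₀ hSlt (by positivity) (by omega)
    have h2 : ((S':ℝ) ^ (1 + 1 / (d:ℝ))) ^ d = (S':ℝ) ^ (d + 1) := by
      rw [← Real.rpow_natCast, ← Real.rpow_mul (by positivity), ← Real.rpow_natCast]
      congr 1
      push_cast
      field_simp
    rw [h2] at h1
    exact_mod_cast h1
  have hS2 : (S:ℝ) ≤ C1 ^ (1 + η) * X ^ (1 + η) := by
    calc (S:ℝ) ≤ (S':ℝ) ^ (1 + 1 / (d:ℝ)) := hSle
      _ ≤ (S':ℝ) ^ (1 + η) := Real.rpow_le_rpow_of_exponent_le hS'r (by linarith)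
      _ ≤ (C1 * X) ^ (1 + η) := Real.rpow_le_rpow (by positivity) hS'2 (by positivity)
      _ = C1 ^ (1 + η) * X ^ (1 + η) := Real.mul_rpow (by positivity) (by positivity)
  set T : ℝ := N - B with hT
  have hBle : B ≤ (2 * (M:ℝ)) ^ 2 * X ^ (1 + η) := by
    rw [hBX]
    have : (0:ℝ) ≤ (2 * (M:ℝ)) ^ 2 := by positivity
    nlinarith
  have hTge : (2 + C2 + 4 * (M:ℝ) ^ 5) * X ^ (1 + η) ≤ T := by
    rw [hT]
    have : C * X ^ (1 + η) = (2 * (M:ℝ)) ^ 2 * X ^ (1 + η)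
        + (2 + C2 + 4 * (M:ℝ) ^ 5) * X ^ (1 + η) := by rw [hC]; ring
    linarith
  have hM5 : (0:ℝ) ≤ 4 * (M:ℝ) ^ 5 := by positivity
  have hT2 : C2 * X ^ (1 + η) + 2 ≤ T := by
    refine le_trans ?_ hTge
    nlinarith
  apply prog_aux α β θ γ ε δ d A M S S' N B T hε hδ hd1 hA (by omega) hB1 le_rfl
    (by nlinarith) le_rfl hS'1 hSS _ hS1 hα
  · intro e he1 he2
    apply hθ e he1
    calc ε ^ 2 * (e:ℝ) ≤ ε ^ 2 * (M * B ^ 2) := by gcongr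
      _ = 4 * (M:ℝ) ^ 5 := by
          rw [hB]; field_simp; ring
      _ ≤ C := by
          rw [hC]
          have : 0 ≤ (2 * (M:ℝ)) ^ 2 := by positivity
          linarith
  · have h1 : 2 * (d * (S * (M:ℝ) ^ (d - 1))) ≤ C2 * X ^ (1 + η) := by
      calc 2 * (d * (S * (M:ℝ) ^ (d - 1))) = 2 * (d * (M:ℝ) ^ (d - 1)) * S := by ring
        _ ≤ 2 * (d * (M:ℝ) ^ (d - 1)) * (C1 ^ (1 + η) * X ^ (1 + η)) := by gcongr
        _ = C2 * X ^ (1 + η) := by rw [hC2]; ring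
    linarith

end Pool.Agent.Y412.LP
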