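import Mathlib

set_option autoImplicit false

/-!
# Auxiliary binary forms

`hom d f m n` is the value at `(m, n)` of the binary form of degree `d - 1` with the coefficients
`f 0, ..., f (d - 1)`. For real numbers `x` and `y` the pigeonhole principle gives a nonzero form
`f` of degree `d - 1` with integer coefficients for which the form `f (m, n) (m x + n y)` of
degree `d` has coefficients close to integers.
-/

namespace Pool.Agent.Y412.LP

open Finset

/-- a binary form of degree `d - 1` -/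
def hom {K : Type*} [CommRing K] (d : ℕ) (f : ℕ → K) (m n : K) : K :=
  ∑ i ∈ range d, f i * m ^ (d - 1 - i) * n ^ i

/-- the coefficients of the product of a form with `m x + n y` -/
def lin (d : ℕ) (f : ℕ → ℤ) (x y : ℝ) (j : ℕ) : ℝ :=
  (if j < d then (f j : ℝ) * x else 0) + (if 1 ≤ j then (f (j - 1) : ℝ) * y else 0)

lemma hom_mul (d : ℕ) (f : ℕ → ℤ) (x y m n : ℝ) :
    hom d (fun i => (f i : ℝ)) m n * (m * x + n * y) = hom (d + 1) (lin d f x y) m n := by
  unfold hom lin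
  have h1 : ∑ j ∈ range (d + 1), ((if j < d then (f j : ℝ) * x else 0)
      + (if 1 ≤ j then (f (j - 1) : ℝ) * y else 0)) * m ^ (d + 1 - 1 - j) * n ^ j
      = ∑ j ∈ range (d + 1), (if j < d then (f j : ℝ) * x else 0) * m ^ (d - j) * n ^ j
      + ∑ j ∈ range (d + 1), (if 1 ≤ j then (f (j - 1) : ℝ) * y else 0) * m ^ (d - j) * n ^ j := by
    rw [← sum_add_distrib]
    apply sum_congr rfl
    intro j _
    rw [show d + 1 - 1 - j = d - j by omega]
    ring
  rw [h1, sum_range_succ, sum_range_succ' (fun j => (if 1 ≤ j then (f (j - 1) : ℝ) * y else 0)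
    * m ^ (d - j) * n ^ j)]
  simp only [lt_irrefl, if_false, zero_mul, add_zero, Nat.le_add_left, if_true,
    Nat.add_sub_cancel]
  rw [if_neg (by norm_num : ¬ (1:ℕ) ≤ 0), zero_mul, zero_mul, add_zero, sum_mul,
    ← sum_add_distrib]
  apply sum_congr rfl
  intro i hi
  have hi' := mem_range.1 hi
  rw [if_pos hi']
  obtain ⟨e, he⟩ : ∃ e, d = i + 1 + e := ⟨d - (i + 1), by omega⟩
  have e1 : d - 1 - i = e := by omega
  have e2 : d - i = e + 1 := by omega
  have e3 : d - (i + 1) = e := by omega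
  rw [e1, e2, e3]
  ring

/-- Pigeonhole principle. -/
lemma dir (d : ℕ) (x y : ℝ) (S S' : ℕ) (hS' : 1 ≤ S') (h : S' ^ (d + 1) < (S + 1) ^ d) :
    ∃ f g : ℕ → ℤ, (∃ i, i < d ∧ f i ≠ 0) ∧ (∀ i, |f i| ≤ S) ∧
      ∀ j, j ≤ d → |lin d f x y j - g j| ≤ 1 / S' := by
  classical
  have hSr : (0 : ℝ) < S' := by exact_mod_cast hS'
  -- extension of a function on `Fin d`
  let ex : (Fin d → Fin (S + 1)) → ℕ → ℤ := fun F i =>
    if hi : i < d then ((F ⟨i, hi⟩ : ℕ) : ℤ) else 0
  let φ : (Fin d → Fin (S + 1)) → (Fin (d + 1) → Fin S') := fun F j =>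
    ⟨⌊(S' : ℝ) * Int.fract (lin d (ex F) x y j)⌋₊, by
      rw [Nat.floor_lt (by positivity)]
      have := Int.fract_lt_one (lin d (ex F) x y j)
      nlinarith⟩
  have hcard : Fintype.card (Fin (d + 1) → Fin S') < Fintype.card (Fin d → Fin (S + 1)) := by
    simp only [Fintype.card_fun, Fintype.card_fin]
    exact h
  obtain ⟨F1, F2, hne, heq⟩ := Fintype.exists_ne_map_eq_of_card_lt φ hcard
  refine ⟨fun i => ex F1 i - ex F2 i,
    fun j => ⌊lin d (ex F1) x y j⌋ - ⌊lin d (ex F2) x y j⌋, ?_, ?_, ?_⟩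
  · by_contra hcon
    push Not at hcon
    apply hne
    funext i
    have h1 := hcon i i.2
    simp only [ex, i.2, dif_pos] at h1
    apply Fin.ext
    have : ((F1 i : ℕ) : ℤ) = ((F2 i : ℕ) : ℤ) := by linarith
    exact_mod_cast this
  · intro i
    by_cases hi : i < d
    · simp only [ex, hi, dif_pos]
      have h1 := (F1 ⟨i, hi⟩).2
      have h2 := (F2 ⟨i, hi⟩).2
      rw [abs_le]
      constructor <;> omega
    · simp [ex, hi]
  · intro j hj
    have h1 := congrFun heq ⟨j, by omega⟩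
    have h2 : ⌊(S' : ℝ) * Int.fract (lin d (ex F1) x y j)⌋₊
        = ⌊(S' : ℝ) * Int.fract (lin d (ex F2) x y j)⌋₊ := by
      have := congrArg Fin.val h1
      exact this
    have hlin : lin d (fun i => ex F1 i - ex F2 i) x y j
        = lin d (ex F1) x y j - lin d (ex F2) x y j := by
      unfold lin
      split_ifs <;> push_cast <;> ring
    have a1 := Nat.floor_le (show 0 ≤ (S' : ℝ) * Int.fract (lin d (ex F1) x y j) by positivity)
    have a2 := Nat.lt_floor_add_one ((S' : ℝ) * Int.fract (lin d (ex F1) x y j))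
    have a3 := Nat.floor_le (show 0 ≤ (S' : ℝ) * Int.fract (lin d (ex F2) x y j) by positivity)
    have a4 := Nat.lt_floor_add_one ((S' : ℝ) * Int.fract (lin d (ex F2) x y j))
    rw [h2] at a1 a2
    rw [hlin]
    have b1 := Int.floor_add_fract (lin d (ex F1) x y j)
    have b2 := Int.floor_add_fract (lin d (ex F2) x y j)
    have e1 : lin d (ex F1) x y j - lin d (ex F2) x y j
        - ((⌊lin d (ex F1) x y j⌋ - ⌊lin d (ex F2) x y j⌋ : ℤ) : ℝ)
        = Int.fract (lin d (ex F1) x y j) - Int.fract (lin d (ex F2) x y j) := by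
      push_cast
      linarith
    rw [e1, le_div_iff₀ hSr]
    have e2 : |Int.fract (lin d (ex F1) x y j) - Int.fract (lin d (ex F2) x y j)| * S'
        = |(S' : ℝ) * Int.fract (lin d (ex F1) x y j)
          - (S' : ℝ) * Int.fract (lin d (ex F2) x y j)| := by
      rw [← mul_sub, abs_mul, abs_of_pos hSr, mul_comm]
    rw [e2, abs_le]
    constructor <;> linarith

lemma hom_abs_le (d : ℕ) (f : ℕ → ℝ) (m n M S : ℝ) (hM : 1 ≤ M) (hm : |m| ≤ M) (hn : |n| ≤ M)
    (hS : 0 ≤ S) (hf : ∀ i, i < d → |f i| ≤ S) : |hom d f m n| ≤ d * (S * M ^ (d - 1)) := by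
  unfold hom
  calc |∑ i ∈ range d, f i * m ^ (d - 1 - i) * n ^ i|
      ≤ ∑ i ∈ range d, |f i * m ^ (d - 1 - i) * n ^ i| := abs_sum_le_sum_abs _ _
    _ ≤ ∑ _i ∈ range d, S * M ^ (d - 1) := by
        apply sum_le_sum
        intro i hi
        have hi' := mem_range.1 hi
        rw [abs_mul, abs_mul, abs_pow, abs_pow, mul_assoc]
        have h1 : M ^ (d - 1) = M ^ (d - 1 - i) * M ^ i := by
          rw [← pow_add]; congr 1; omega
        rw [h1]
        have h2 := hf i hi'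
        gcongr
    _ = d * (S * M ^ (d - 1)) := by simp

/-- Exact relations at all points with good rational approximations. -/
lemma exact (d : ℕ) (x y : ℝ) (S S' M : ℕ) (B T : ℝ) (hS' : 1 ≤ S')
    (h : S' ^ (d + 1) < (S + 1) ^ d) (hM : 1 ≤ M) (hB : 0 ≤ B) (hT : 0 < T)
    (hT1 : 2 * (d * (S * (M:ℝ) ^ (d - 1))) < T) (hS1 : 2 * (B * ((d + 1) * (M:ℝ) ^ d)) ≤ S') :
    ∃ f g : ℕ → ℤ, (∃ i, i < d ∧ f i ≠ 0) ∧
      ∀ (m n : ℕ) (b : ℕ) (c : ℤ), m ≤ M → n ≤ M → (b:ℝ) ≤ B → |b * (m * x + n * y) - c| ≤ 1/T →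
        hom d f m n * c = b * hom (d + 1) g m n := by
  obtain ⟨f, g, hf0, hfS, hfg⟩ := dir d x y S S' hS' h
  refine ⟨f, g, hf0, ?_⟩
  intro m n b c hm hn hb hbc
  have hMr : (1:ℝ) ≤ M := by exact_mod_cast hM
  have hSr : (0 : ℝ) < S' := by exact_mod_cast hS'
  have hcast : ∀ (e : ℕ) (u : ℕ → ℤ), ((hom e u (m:ℤ) (n:ℤ) : ℤ) : ℝ)
      = hom e (fun i => (u i : ℝ)) m n := by
    intro e u
    unfold hom
    push_cast
    rfl
  have h1 := hom_mul d f x y m n
  have h2 : |hom d (fun i => (f i : ℝ)) (m:ℝ) n| ≤ d * (S * (M:ℝ) ^ (d - 1)) := by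
    apply hom_abs_le _ _ _ _ _ _ hMr
    · rw [abs_of_nonneg (by positivity)]; exact_mod_cast hm
    · rw [abs_of_nonneg (by positivity)]; exact_mod_cast hn
    · positivity
    · intro i _
      exact_mod_cast hfS i
  have h3 : |hom (d + 1) (fun j => lin d f x y j - (g j : ℝ)) (m:ℝ) n|
      ≤ ((d + 1 : ℕ) : ℝ) * (1 / S' * (M:ℝ) ^ (d + 1 - 1)) := by
    apply hom_abs_le _ _ _ _ _ _ hMr
    · rw [abs_of_nonneg (by positivity)]; exact_mod_cast hm
    · rw [abs_of_nonneg (by positivity)]; exact_mod_cast hn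
    · positivity
    · intro i hi
      exact hfg i (by omega)
  have h4 : hom (d + 1) (fun j => lin d f x y j - (g j : ℝ)) (m:ℝ) n
      = hom (d + 1) (lin d f x y) (m:ℝ) n - hom (d + 1) (fun j => (g j : ℝ)) (m:ℝ) n := by
    unfold hom
    rw [← sum_sub_distrib]
    apply sum_congr rfl
    intro i _
    ring
  rw [h4, ← h1] at h3
  set Φ := hom d (fun i => (f i : ℝ)) (m:ℝ) n with hΦ
  set R := hom (d + 1) (fun j => (g j : ℝ)) (m:ℝ) n with hR
  have h5 : ((hom d f (m:ℤ) n * c - b * hom (d + 1) g (m:ℤ) n : ℤ) : ℝ) = Φ * c - b * R := by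
    push_cast
    rw [hcast, hcast]
  have h6 : Φ * c - b * R = -(Φ * (b * (m * x + n * y) - c)) + b * (Φ * (m * x + n * y) - R) := by
    ring
  have h7 : |Φ * c - b * R| < 1 := by
    rw [h6]
    have k1 : |Φ * (b * (m * x + n * y) - c)| < 1/2 := by
      rw [abs_mul]
      calc |Φ| * |b * (m * x + n * y) - c| ≤ (d * (S * (M:ℝ) ^ (d - 1))) * (1/T) := by gcongr
        _ < 1/2 := by
          rw [mul_one_div, div_lt_div_iff₀ hT (by norm_num)]
          linarith
    have k2 : |(b:ℝ) * (Φ * (m * x + n * y) - R)| ≤ 1/2 := by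
      rw [abs_mul, Nat.abs_cast]
      calc (b:ℝ) * |Φ * (m * x + n * y) - R|
          ≤ B * (((d + 1 : ℕ) : ℝ) * (1 / S' * (M:ℝ) ^ (d + 1 - 1))) := by gcongr
        _ = (B * ((d + 1) * (M:ℝ) ^ d)) / S' := by
            rw [show d + 1 - 1 = d by omega]; push_cast; field_simp
        _ ≤ 1/2 := by
          rw [div_le_div_iff₀ hSr (by norm_num)]
          linarith
    calc |-(Φ * (b * (m * x + n * y) - c)) + b * (Φ * (m * x + n * y) - R)|
        ≤ |-(Φ * (b * (m * x + n * y) - c))| + |b * (Φ * (m * x + n * y) - R)| := abs_add_le _ _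
      _ < 1 := by rw [abs_neg]; linarith
  rw [← h5] at h7
  have h8 : |hom d f (m:ℤ) n * c - b * hom (d + 1) g (m:ℤ) n| < 1 := by exact_mod_cast h7
  have h9 := Int.abs_lt_one_iff.1 h8
  linarith

end Pool.Agent.Y412.LP
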