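import Pool.Agent.Y412.LP.Struct

set_option autoImplicit false

/-!
# The rational function is linear
-/

namespace Pool.Agent.Y412.LP

open Finset Polynomial Filter Topology

section

variable {α θ : ℝ} {q p a : ℕ → ℤ} {b : ℤ → ℕ} {c : ℤ → ℤ} {A d M : ℕ} {B T : ℝ}

lemma exists_factor (α : ℝ) (P : ℝ[X]) (hP : P ≠ 0) :
    ∃ (ν : ℕ) (P1 : ℝ[X]), P = (X - C α) ^ ν * P1 ∧ P1.eval α ≠ 0 := by
  obtain ⟨P1, h1, h2⟩ := Polynomial.exists_eq_pow_rootMultiplicity_mul_and_not_dvd P hP α
  refine ⟨_, P1, h1, ?_⟩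
  intro h3
  exact h2 (dvd_iff_isRoot.2 h3)

lemma Data.tendsto_Q (h : Data α θ q p a b c A d M B T) (n : ℕ) :
    Tendsto (fun k => (((1:ℕ) * q k + n * q (k + 1) : ℤ) : ℝ)) atTop atTop := by
  apply tendsto_atTop_mono _ h.hqt
  intro k
  have h1 := h.hq (k + 1)
  have : q k ≤ ((1:ℕ) * q k + n * q (k + 1) : ℤ) := by
    have h5 : (0 : ℤ) ≤ (n : ℤ) := by positivity
    push_cast
    nlinarith
  exact_mod_cast this

lemma Data.tendsto_P (h : Data α θ q p a b c A d M B T) (n : ℕ) :
    Tendsto (fun k => (((1:ℕ) * q k + n * q (k + 1) : ℤ) : ℝ) * α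
      - (((1:ℕ) * p k + n * p (k + 1) : ℤ) : ℝ)) atTop (𝓝 0) := by
  have h1 := h.hdt
  have h2 := h.hdt.comp (tendsto_add_atTop_nat 1)
  have h3 := h1.add (h2.const_mul (n:ℝ))
  simp only [mul_zero, add_zero] at h3
  refine h3.congr ?_
  intro k
  simp only [Function.comp]
  push_cast
  ring

lemma Data.slope_sub (h : Data α θ q p a b c A d M B T) (k n : ℕ) :
    (((1:ℕ) * q k + n * q (k + 1) : ℤ) : ℝ) * (slope q p k (1:ℕ) n - α)
      = -((((1:ℕ) * q k + n * q (k + 1) : ℤ) : ℝ) * α
      - (((1:ℕ) * p k + n * p (k + 1) : ℤ) : ℝ)) := by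
  have hQ := h.Qpos k 1 n (by omega)
  have hQr : (((1:ℕ) * q k + n * q (k + 1) : ℤ) : ℝ) ≠ 0 := by exact_mod_cast hQ.ne'
  unfold slope
  field_simp
  ring

lemma Data.slope_ne (h : Data α θ q p a b c A d M B T) (k n : ℕ) :
    slope q p k (1:ℕ) n ≠ α := by
  intro hc
  apply h.hα
  refine ⟨(((1:ℕ) * p k + n * p (k + 1) : ℤ) : ℚ) / (((1:ℕ) * q k + n * q (k + 1) : ℤ) : ℚ), ?_⟩
  rw [← hc]
  unfold slope
  push_cast
  ring

lemma Data.tendsto_slope (h : Data α θ q p a b c A d M B T) (n : ℕ) :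
    Tendsto (fun k => slope q p k (1:ℕ) n) atTop (𝓝 α) := by
  have h1 := (h.tendsto_P n).div_atTop (h.tendsto_Q n)
  have h2 := (tendsto_const_nhds (x := α)).sub h1
  rw [sub_zero] at h2
  refine h2.congr ?_
  intro k
  have h3 := h.slope_sub k n
  have hQ := h.Qpos k 1 n (by omega)
  have hQr : (((1:ℕ) * q k + n * q (k + 1) : ℤ) : ℝ) ≠ 0 := by exact_mod_cast hQ.ne'
  field_simp
  linear_combination (-1:ℝ) * h3

/-- The main structural theorem. -/
theorem Data.main (h : Data α θ q p a b c A d M B T) (S S' : ℕ) (hS' : 1 ≤ S')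
    (hSS : S' ^ (d + 1) < (S + 1) ^ d) (hT1 : 2 * (d * (S * (M:ℝ) ^ (d - 1))) < T)
    (hS1 : 2 * (B * ((d + 1) * (M:ℝ) ^ d)) ≤ S') :
    ∃ e : ℕ, 1 ≤ e ∧ (e:ℝ) ≤ M * B ^ 2 ∧ ∃ U V : ℤ, (e:ℝ) * θ = U + V * α := by
  have hd := h.hd
  have hM := h.hM
  have hB := h.hB
  have hT := h.hT
  choose F R hF0 hFd hRd hrel using h.window S S' hS' hSS hT1 hS1
  have hchain : ∀ k, F 0 * R k = F k * R 0 := by
    intro k
    induction k with
    | zero => rfl
    | succ k ih =>
      have hl := h.link k (F k) (R k) (F (k + 1)) (R (k + 1)) (hFd k) (hRd k) (hFd _) (hRd _)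
        (hrel k) (hrel (k + 1))
      apply mul_left_cancel₀ (hF0 k)
      calc F k * (F 0 * R (k + 1)) = F 0 * (F k * R (k + 1)) := by ring
        _ = F 0 * (F (k + 1) * R k) := by rw [hl]
        _ = F (k + 1) * (F 0 * R k) := by ring
        _ = F (k + 1) * (F k * R 0) := by rw [ih]
        _ = F k * (F (k + 1) * R 0) := by ring
  set Q : ℕ → ℕ → ℤ := fun k n => (1:ℕ) * q k + n * q (k + 1) with hQdef
  set P : ℕ → ℕ → ℤ := fun k n => (1:ℕ) * p k + n * p (k + 1) with hPdef
  set z : ℕ → ℕ → ℝ := fun k n => slope q p k (1:ℕ) n with hzdef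
  set r : ℕ → ℕ → ℝ := fun k n => (c (Q k n) : ℝ) / b (Q k n) with hrdef
  have hQpos : ∀ k n, (0:ℝ) < Q k n := fun k n => by
    have := h.Qpos k 1 n (by omega)
    exact_mod_cast this
  have hb1 : ∀ k n, n ≤ M → (1:ℝ) ≤ b (Q k n) := fun k n hn => by
    exact_mod_cast (h.hb k 1 n (by omega) hn (by omega)).1
  have hbB : ∀ k n, n ≤ M → (b (Q k n) : ℝ) ≤ B := fun k n hn =>
    (h.hb k 1 n (by omega) hn (by omega)).2.1
  have hrQ : ∀ k n, n ≤ M → |r k n - Q k n * θ| ≤ 1 := by
    intro k n hn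
    have h1 := (h.hb k 1 n (by omega) hn (by omega)).2.2
    have h2 := hb1 k n hn
    have h3 : (b (Q k n) : ℝ) * (r k n - Q k n * θ) = -(b (Q k n) * ((Q k n : ℝ) * θ) - c (Q k n)) := by
      simp only [hrdef]
      field_simp
      ring
    have h4 : (b (Q k n) : ℝ) * |r k n - Q k n * θ| ≤ 1 / T := by
      have h3' := congrArg abs h3
      rw [abs_mul, abs_neg, abs_of_pos (by linarith : (0:ℝ) < b (Q k n))] at h3'
      rw [h3']
      exact h1
    have h5 : 1 / T ≤ 1 := by
      rw [div_le_one (by linarith)]; exact hT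
    nlinarith [abs_nonneg (r k n - Q k n * θ)]
  have hz : ∀ k n, (Q k n : ℝ) * (z k n - α) = -((Q k n : ℝ) * α - P k n) := fun k n =>
    h.slope_sub k n
  have hzP : ∀ k n, (Q k n : ℝ) * z k n = P k n := fun k n => by
    have := hz k n
    linarith
  have hzinj : ∀ k n n', z k n = z k n' → n = n' := by
    intro k n n' hh
    apply h.slope_inj k
    simpa [hzdef] using hh
  -- the good relation
  have hgood : ∀ k n, n ≤ M → (F k).eval (z k n) ≠ 0 →
      (F 0).eval (z k n) * (r k n - Q k n * θ) = Q k n * (R 0 - C θ * F 0).eval (z k n) := by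
    intro k n hn hne
    have h1 := hrel k 1 n (by omega) hn (by omega)
    have h2 : (F 0).eval (z k n) * (R k).eval (z k n) = (F k).eval (z k n) * (R 0).eval (z k n) := by
      rw [← eval_mul, ← eval_mul, hchain k]
    have h1' : (F k).eval (z k n) * c (Q k n) = b (Q k n) * ((Q k n : ℝ) * (R k).eval (z k n)) := h1
    have h3 := hb1 k n hn
    have hbne : (b (Q k n) : ℝ) ≠ 0 := by positivity
    have h4 : (F 0).eval (z k n) * r k n = Q k n * (R 0).eval (z k n) := by
      apply mul_left_cancel₀ hne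
      apply mul_left_cancel₀ hbne
      have h5 : (b (Q k n) : ℝ) * r k n = c (Q k n) := by
        simp only [hrdef]; field_simp
      linear_combination (F k).eval (z k n) * (F 0).eval (z k n) * h5
        + (F 0).eval (z k n) * h1' + b (Q k n) * Q k n * h2
    rw [eval_sub, eval_mul, eval_C]
    linear_combination h4
  have hexgood : ∀ k, ∃ n, n ≤ M ∧ (F k).eval (z k n) ≠ 0 := by
    intro k
    by_contra hcon
    push Not at hcon
    apply hF0 k
    apply eq_zero_of_zeros _ (M + 1) (z k)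
    · intro x _ y _ hxy
      exact hzinj k x y hxy
    · intro n hn
      exact hcon n (by omega)
    · have := hFd k
      omega
  obtain ⟨ν, F1, hF1, hF1α⟩ := exists_factor α (F 0) (hF0 0)
  -- claim A
  have claimA : ∃ (t : ℕ) (G1 : ℝ[X]), R 0 - C θ * F 0 = (X - C α) ^ (ν + 1 + t) * G1 := by
    by_cases hG : R 0 - C θ * F 0 = 0
    · exact ⟨0, 0, by rw [hG, mul_zero]⟩
    obtain ⟨μ, G1, hG1, hG1α⟩ := exists_factor α _ hG
    by_cases hμ : ν + 1 ≤ μ
    · refine ⟨μ - (ν + 1), G1, ?_⟩
      rw [hG1]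
      congr 2
      omega
    exfalso
    obtain ⟨s, hs⟩ : ∃ s, ν = μ + s := ⟨ν - μ, by omega⟩
    have key : ∀ n ∈ Finset.range (M + 1), ∀ᶠ k in atTop, (F k).eval (z k n) = 0 := by
      intro n hn
      have hn' : n ≤ M := by have := Finset.mem_range.1 hn; omega
      have t1 : Tendsto (fun k => |G1.eval (z k n)|) atTop (𝓝 |G1.eval α|) :=
        ((G1.continuous.tendsto α).comp (h.tendsto_slope n)).abs
      have t2 : Tendsto (fun k => |F1.eval (z k n)|) atTop (𝓝 |F1.eval α|) :=
        ((F1.continuous.tendsto α).comp (h.tendsto_slope n)).abs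
      have t3 : Tendsto (fun k => |z k n - α| ^ s) atTop (𝓝 (|α - α| ^ s)) :=
        (((h.tendsto_slope n).sub_const α).abs).pow s
      have t4 := t3.mul t2
      have t5 : Tendsto (fun k => (Q k n : ℝ) * |G1.eval (z k n)|) atTop atTop :=
        (h.tendsto_Q n).atTop_mul_pos (abs_pos.2 hG1α) t1
      filter_upwards [t4.eventually (gt_mem_nhds (lt_add_one _)),
        t5.eventually (eventually_gt_atTop (|α - α| ^ s * |F1.eval α| + 1))] with k hk1 hk2
      by_contra hne
      have h1 := hgood k n hn' hne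
      rw [hG1, hF1, hs, pow_add] at h1
      simp only [eval_mul, eval_pow, eval_sub, eval_X, eval_C] at h1
      have hzne : z k n - α ≠ 0 := sub_ne_zero.2 (h.slope_ne k n)
      have h2 : (z k n - α) ^ s * F1.eval (z k n) * (r k n - Q k n * θ)
          = Q k n * G1.eval (z k n) := by
        apply mul_left_cancel₀ (pow_ne_zero μ hzne)
        linear_combination h1
      have h3 := congrArg abs h2
      rw [abs_mul, abs_mul, abs_pow, abs_mul, abs_of_pos (hQpos k n)] at h3
      have h4 := hrQ k n hn'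
      have h5 : |z k n - α| ^ s * |F1.eval (z k n)| * |r k n - Q k n * θ|
          ≤ |z k n - α| ^ s * |F1.eval (z k n)| * 1 := by gcongr
      linarith
    have hall := (Filter.eventually_all_finset (Finset.range (M + 1))).2 key
    obtain ⟨k, hk⟩ := hall.exists
    obtain ⟨n, hn, hne⟩ := hexgood k
    exact hne (hk n (Finset.mem_range.2 (by omega)))
  obtain ⟨t, G1, hG1⟩ := claimA
  -- claim B
  have claimB : ∀ κ : ℝ, 0 < κ → ∃ k, ∀ n, n ≤ M → (F k).eval (z k n) ≠ 0 →
      |r k n - Q k n * θ| < κ := by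
    intro κ hκ
    have key : ∀ n ∈ Finset.range (M + 1), ∀ᶠ k in atTop, (F k).eval (z k n) ≠ 0 →
        |r k n - Q k n * θ| < κ := by
      intro n hn
      have hn' : n ≤ M := by have := Finset.mem_range.1 hn; omega
      have t1 : Tendsto (fun k => |G1.eval (z k n)|) atTop (𝓝 |G1.eval α|) :=
        ((G1.continuous.tendsto α).comp (h.tendsto_slope n)).abs
      have t2 : Tendsto (fun k => |F1.eval (z k n)|) atTop (𝓝 |F1.eval α|) :=
        ((F1.continuous.tendsto α).comp (h.tendsto_slope n)).abs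
      have t3 : Tendsto (fun k => |z k n - α| ^ t) atTop (𝓝 (|α - α| ^ t)) :=
        (((h.tendsto_slope n).sub_const α).abs).pow t
      have t6 : Tendsto (fun k => |(Q k n : ℝ) * α - P k n|) atTop (𝓝 0) := by
        have := (h.tendsto_P n).abs
        rwa [abs_zero] at this
      have t7 := (t6.mul (t3.mul t1))
      rw [zero_mul] at t7
      have hpos := abs_pos.2 hF1α
      have e1 : |F1.eval α| / 2 < |F1.eval α| := by linarith
      have e2 : (0:ℝ) < κ * (|F1.eval α| / 2) := by positivity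
      filter_upwards [t2.eventually (lt_mem_nhds e1), t7.eventually (gt_mem_nhds e2)] with k hk1 hk2
      intro hne
      have h1 := hgood k n hn' hne
      rw [hG1, hF1, show ν + 1 + t = ν + (1 + t) by omega, pow_add, pow_add] at h1
      simp only [eval_mul, eval_pow, eval_sub, eval_X, eval_C] at h1
      have hzne : z k n - α ≠ 0 := sub_ne_zero.2 (h.slope_ne k n)
      have h2 : F1.eval (z k n) * (r k n - Q k n * θ)
          = -((Q k n : ℝ) * α - P k n) * ((z k n - α) ^ t * G1.eval (z k n)) := by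
        rw [← hz]
        apply mul_left_cancel₀ (pow_ne_zero ν hzne)
        linear_combination h1
      have h3 := congrArg abs h2
      rw [abs_mul, abs_mul, abs_neg, abs_mul, abs_pow] at h3
      by_contra hcon
      push Not at hcon
      have h4 : κ * (|F1.eval α| / 2) ≤ |F1.eval (z k n)| * |r k n - Q k n * θ| := by
        rw [mul_comm]
        gcongr
      linarith
    have hall := (Filter.eventually_all_finset (Finset.range (M + 1))).2 key
    obtain ⟨k, hk⟩ := hall.exists
    exact ⟨k, fun n hn => hk n (Finset.mem_range.2 (by omega))⟩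
  -- exact linear relations in one window
  have hMr : (0:ℝ) ≤ M := by positivity
  obtain ⟨k, hk⟩ := claimB (1 / (4 * (M + 1) * B ^ 3)) (by positivity)
  obtain ⟨n1, hn1, hg1⟩ := hexgood k
  obtain ⟨n2, hn2, hg2, hn12⟩ : ∃ n2, n2 ≤ M ∧ (F k).eval (z k n2) ≠ 0 ∧ n1 ≠ n2 := by
    by_contra hcon
    push Not at hcon
    have hH : F k * (X - C (z k n1)) = 0 := by
      apply eq_zero_of_zeros _ (M + 1) (z k)
      · intro x _ y _ hxy
        exact hzinj k x y hxy
      · intro n hn
        rw [eval_mul]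
        by_cases hne : (F k).eval (z k n) = 0
        · rw [hne, zero_mul]
        · have := hcon n (by omega) hne
          rw [this]
          simp
      · have h1 := hFd k
        have h2 : (F k * (X - C (z k n1))).natDegree ≤ (F k).natDegree + 1 := by
          refine natDegree_mul_le.trans ?_
          rw [natDegree_X_sub_C]
        omega
    rcases mul_eq_zero.1 hH with h1 | h1
    · exact hF0 k h1
    · exact X_sub_C_ne_zero _ h1
  -- order the two indices
  obtain ⟨m1, m2, hm1, hm2, hgm1, hgm2, hlt⟩ : ∃ m1 m2, m1 ≤ M ∧ m2 ≤ M ∧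
      (F k).eval (z k m1) ≠ 0 ∧ (F k).eval (z k m2) ≠ 0 ∧ m1 < m2 := by
    rcases lt_or_gt_of_ne hn12 with h1 | h1
    · exact ⟨n1, n2, hn1, hn2, hg1, hg2, h1⟩
    · exact ⟨n2, n1, hn2, hn1, hg2, hg1, h1⟩
  have hltr : (m1:ℝ) < m2 := by exact_mod_cast hlt
  have hm12 : (0:ℝ) < (m2:ℝ) - m1 := by linarith
  have haff : ∀ n, n ≤ M → (F k).eval (z k n) ≠ 0 →
      ((n:ℝ) - m2) * r k m1 + ((m1:ℝ) - n) * r k m2 + ((m2:ℝ) - m1) * r k n = 0 := by
    intro n hn hg
    set I : ℤ := ((n:ℤ) - m2) * (c (Q k m1) * (b (Q k m2) * b (Q k n)))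
      + ((m1:ℤ) - n) * (c (Q k m2) * (b (Q k m1) * b (Q k n)))
      + ((m2:ℤ) - m1) * (c (Q k n) * (b (Q k m1) * b (Q k m2))) with hI
    have u1 := hb1 k m1 hm1
    have u2 := hb1 k m2 hm2
    have u3 := hb1 k n hn
    have v1 := hbB k m1 hm1
    have v2 := hbB k m2 hm2
    have v3 := hbB k n hn
    have w1 := hk m1 hm1 hgm1
    have w2 := hk m2 hm2 hgm2
    have w3 := hk n hn hg
    have hQl : ((n:ℝ) - m2) * Q k m1 + ((m1:ℝ) - n) * Q k m2 + ((m2:ℝ) - m1) * Q k n = 0 := by
      simp only [hQdef]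
      push_cast
      ring
    have hIe : (I : ℝ) = (b (Q k m1) * b (Q k m2) * b (Q k n)) *
        (((n:ℝ) - m2) * (r k m1 - Q k m1 * θ) + ((m1:ℝ) - n) * (r k m2 - Q k m2 * θ)
          + ((m2:ℝ) - m1) * (r k n - Q k n * θ)) := by
      have e1 : ((n:ℝ) - m2) * (r k m1 - Q k m1 * θ) + ((m1:ℝ) - n) * (r k m2 - Q k m2 * θ)
          + ((m2:ℝ) - m1) * (r k n - Q k n * θ)
          = ((n:ℝ) - m2) * r k m1 + ((m1:ℝ) - n) * r k m2 + ((m2:ℝ) - m1) * r k n := by
        linear_combination (-θ) * hQl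
      rw [e1, hI]
      simp only [hrdef]
      push_cast
      field_simp
    have hnr : (n:ℝ) ≤ M := by exact_mod_cast hn
    have hm1r : (m1:ℝ) ≤ M := by exact_mod_cast hm1
    have hm2r : (m2:ℝ) ≤ M := by exact_mod_cast hm2
    have hn0 : (0:ℝ) ≤ n := by positivity
    have hm10 : (0:ℝ) ≤ m1 := by positivity
    have hm20 : (0:ℝ) ≤ m2 := by positivity
    have hlt1 : |(I:ℝ)| < 1 := by
      rw [hIe, abs_mul, abs_of_pos (by positivity)]
      set κ : ℝ := 1 / (4 * (M + 1) * B ^ 3) with hκ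
      have hκ0 : 0 < κ := by positivity
      have a1 : |((n:ℝ) - m2) * (r k m1 - Q k m1 * θ)| ≤ M * κ := by
        rw [abs_mul]
        apply mul_le_mul _ w1.le (abs_nonneg _) hMr
        rw [abs_le]; constructor <;> linarith
      have a2 : |((m1:ℝ) - n) * (r k m2 - Q k m2 * θ)| ≤ M * κ := by
        rw [abs_mul]
        apply mul_le_mul _ w2.le (abs_nonneg _) hMr
        rw [abs_le]; constructor <;> linarith
      have a3 : |((m2:ℝ) - m1) * (r k n - Q k n * θ)| ≤ M * κ := by
        rw [abs_mul]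
        apply mul_le_mul _ w3.le (abs_nonneg _) hMr
        rw [abs_le]; constructor <;> linarith
      calc (b (Q k m1) : ℝ) * b (Q k m2) * b (Q k n) *
            |((n:ℝ) - m2) * (r k m1 - Q k m1 * θ) + ((m1:ℝ) - n) * (r k m2 - Q k m2 * θ)
              + ((m2:ℝ) - m1) * (r k n - Q k n * θ)|
          ≤ B * B * B * (M * κ + M * κ + M * κ) := by
            apply mul_le_mul _ _ (abs_nonneg _) (by positivity)
            · gcongr
            · refine (abs_add_three _ _ _).trans ?_
              linarith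
        _ = 3 * M / (4 * (M + 1)) := by
            rw [hκ]; field_simp; ring
        _ < 1 := by
            rw [div_lt_one (by positivity)]
            linarith
    have hI0 : I = 0 := by
      have : |I| < 1 := by exact_mod_cast hlt1
      exact Int.abs_lt_one_iff.1 this
    rw [hI0, Int.cast_zero] at hIe
    have hbbb : (b (Q k m1) : ℝ) * b (Q k m2) * b (Q k n) ≠ 0 := by positivity
    have h6 := (mul_eq_zero.1 hIe.symm).resolve_left hbbb
    linear_combination h6 + θ * hQl
  -- the linear form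
  set tt : ℝ := (r k m2 - r k m1) / ((m2:ℝ) - m1) with htt
  set ss : ℝ := r k m1 - m1 * tt with hss
  have haff2 : ∀ n, n ≤ M → (F k).eval (z k n) ≠ 0 → r k n = ss + n * tt := by
    intro n hn hg
    have h1 := haff n hn hg
    have h2 : tt * ((m2:ℝ) - m1) = r k m2 - r k m1 := by
      rw [htt]; field_simp
    apply mul_left_cancel₀ hm12.ne'
    rw [hss]
    linear_combination h1 + ((m1:ℝ) - n) * h2
  set D : ℝ := ((q k * p (k + 1) - q (k + 1) * p k : ℤ) : ℝ) with hD
  have hDD : D * D = 1 := by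
    rw [hD]; exact_mod_cast h.hdet k
  set U : ℝ := D * (ss * p (k + 1) - tt * p k) with hU
  set V : ℝ := D * (q k * tt - q (k + 1) * ss) with hV
  have hUV : ∀ n : ℕ, U * Q k n + V * P k n = ss + n * tt := by
    intro n
    have : U * Q k n + V * P k n = D * D * (ss + n * tt) := by
      rw [hU, hV]
      nth_rewrite 4 [hD]
      simp only [hQdef, hPdef]
      push_cast
      ring
    rw [this, hDD, one_mul]
  have hpoly : R 0 - (C U + C V * X) * F 0 = 0 := by
    have hH : F k * (R 0 - (C U + C V * X) * F 0) = 0 := by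
      apply eq_zero_of_zeros _ (M + 1) (z k)
      · intro x _ y _ hxy
        exact hzinj k x y hxy
      · intro n hn
        rw [eval_mul]
        by_cases hne : (F k).eval (z k n) = 0
        · rw [hne, zero_mul]
        · have h1 := hgood k n (by omega) hne
          have h2 := haff2 n (by omega) hne
          have h3 := hUV n
          rw [← h2, ← hzP k n] at h3
          have h4 : (Q k n : ℝ) * (R 0 - (C U + C V * X) * F 0).eval (z k n) = 0 := by
            simp only [eval_sub, eval_mul, eval_C, eval_add, eval_X] at h1 ⊢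
            linear_combination (-(F 0).eval (z k n)) * h3 - h1
          rw [(mul_eq_zero.1 h4).resolve_left (hQpos k n).ne', mul_zero]
      · have h1 := hFd k
        have h2 := hRd 0
        have h3 := hFd 0
        have h4 : ((C U + C V * X) * F 0).natDegree ≤ d := by
          refine natDegree_mul_le.trans ?_
          have h5 : (C U + C V * X : ℝ[X]).natDegree ≤ 1 := by
            refine (natDegree_add_le _ _).trans ?_
            rw [natDegree_C]
            exact max_le (by norm_num) ((natDegree_C_mul_le _ _).trans natDegree_X_le)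
          omega
        have h5 : (R 0 - (C U + C V * X) * F 0).natDegree ≤ d :=
          (natDegree_sub_le _ _).trans (max_le h2 h4)
        have h6 : (F k * (R 0 - (C U + C V * X) * F 0)).natDegree ≤ (d - 1) + d :=
          natDegree_mul_le.trans (by omega)
        omega
    exact (mul_eq_zero.1 hH).resolve_left (hF0 k)
  have hθ : θ = U + V * α := by
    have h1 : R 0 - C θ * F 0 = (C (U - θ) + C V * X) * F 0 := by
      rw [C_sub]
      linear_combination hpoly
    rw [hG1, hF1] at h1
    have h2 : (C (U - θ) + C V * X) * F1 = (X - C α) ^ (1 + t) * G1 := by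
      apply mul_left_cancel₀ (pow_ne_zero ν (X_sub_C_ne_zero α))
      rw [show ν + 1 + t = ν + (1 + t) by omega, pow_add] at h1
      linear_combination -h1
    have h3 := congrArg (Polynomial.eval α) h2
    simp only [eval_mul, eval_add, eval_C, eval_X, eval_pow, eval_sub, sub_self] at h3
    rw [pow_add, pow_one, zero_mul, zero_mul] at h3
    have h4 := (mul_eq_zero.1 h3).resolve_right hF1α
    linarith
  -- integrality
  have u1 := hb1 k m1 hm1
  have u2 := hb1 k m2 hm2
  have v1 := hbB k m1 hm1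
  have v2 := hbB k m2 hm2
  refine ⟨b (Q k m1) * b (Q k m2) * (m2 - m1), ?_, ?_, ?_⟩
  · have w1 := (h.hb k 1 m1 (by omega) hm1 (by omega)).1
    have w2 := (h.hb k 1 m2 (by omega) hm2 (by omega)).1
    have w3 : 0 < b (Q k m1) * b (Q k m2) * (m2 - m1) :=
      Nat.mul_pos (Nat.mul_pos w1 w2) (by omega)
    exact w3
  · push_cast [Nat.cast_sub hlt.le]
    have hm2r : (m2:ℝ) ≤ M := by exact_mod_cast hm2
    have hm10 : (0:ℝ) ≤ m1 := by positivity
    calc (b (Q k m1) : ℝ) * b (Q k m2) * ((m2:ℝ) - m1) ≤ B * B * M := by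
          apply mul_le_mul _ (by linarith) hm12.le (by positivity)
          gcongr
      _ = M * B ^ 2 := by ring
  · obtain ⟨D', hD'⟩ : ∃ D' : ℤ, (D' : ℝ) = D := ⟨_, rfl⟩
    set e : ℝ := ((b (Q k m1) * b (Q k m2) * (m2 - m1) : ℕ) : ℝ) with he
    have he' : e = (b (Q k m1) : ℝ) * b (Q k m2) * ((m2:ℝ) - m1) := by
      rw [he]; push_cast [Nat.cast_sub hlt.le]; ring
    set E1 : ℤ := c (Q k m2) * b (Q k m1) - c (Q k m1) * b (Q k m2) with hE1
    have het : e * tt = E1 := by
      rw [he', htt, hE1]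
      simp only [hrdef]
      push_cast
      field_simp
    set E2 : ℤ := c (Q k m1) * b (Q k m2) * ((m2:ℤ) - m1) - m1 * E1 with hE2
    have hes : e * ss = E2 := by
      have : e * ss = e * r k m1 - m1 * (e * tt) := by rw [hss]; ring
      rw [this, het, he', hE2]
      simp only [hrdef]
      push_cast
      field_simp
    refine ⟨D' * (E2 * p (k + 1) - E1 * p k), D' * (q k * E1 - q (k + 1) * E2), ?_⟩
    rw [hθ, hU, hV]
    push_cast
    rw [hD', ← het, ← hes]
    ring

end

end Pool.Agent.Y412.LP
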