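import Pool.Agent.Y412.LP.Dir

set_option autoImplicit false

/-!
# Binary forms in global coordinates
-/

namespace Pool.Agent.Y412.LP

open Finset Polynomial

/-- first coordinate with respect to the basis `(q1, p1), (q2, p2)` -/
noncomputable def cm (q1 p1 q2 p2 : ℤ) : ℝ[X] :=
  C ((q1 * p2 - q2 * p1 : ℤ) : ℝ) * (C (p2 : ℝ) - C (q2 : ℝ) * X)

/-- second coordinate with respect to the basis `(q1, p1), (q2, p2)` -/
noncomputable def cn (q1 p1 q2 p2 : ℤ) : ℝ[X] :=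
  C ((q1 * p2 - q2 * p1 : ℤ) : ℝ) * (C (q1 : ℝ) * X - C (p1 : ℝ))

/-- a binary form in the coordinates of a window, as a polynomial in the slope -/
noncomputable def Fp (d : ℕ) (f : ℕ → ℤ) (q1 p1 q2 p2 : ℤ) : ℝ[X] :=
  hom d (fun i => C (f i : ℝ)) (cm q1 p1 q2 p2) (cn q1 p1 q2 p2)

lemma natDegree_cm (q1 p1 q2 p2 : ℤ) : (cm q1 p1 q2 p2).natDegree ≤ 1 := by
  unfold cm
  refine (natDegree_C_mul_le _ _).trans ?_
  refine (natDegree_sub_le _ _).trans ?_
  rw [natDegree_C]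
  refine max_le (by norm_num) ((natDegree_C_mul_le _ _).trans natDegree_X_le)

lemma natDegree_cn (q1 p1 q2 p2 : ℤ) : (cn q1 p1 q2 p2).natDegree ≤ 1 := by
  unfold cn
  refine (natDegree_C_mul_le _ _).trans ?_
  refine (natDegree_sub_le _ _).trans ?_
  rw [natDegree_C]
  refine max_le ((natDegree_C_mul_le _ _).trans natDegree_X_le) (by norm_num)

lemma natDegree_Fp (d : ℕ) (f : ℕ → ℤ) (q1 p1 q2 p2 : ℤ) :
    (Fp d f q1 p1 q2 p2).natDegree ≤ d - 1 := by
  unfold Fp hom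
  apply natDegree_sum_le_of_forall_le
  intro i hi
  have hi' := mem_range.1 hi
  beta_reduce
  refine natDegree_mul_le.trans ?_
  have h1 : (C (f i : ℝ) * cm q1 p1 q2 p2 ^ (d - 1 - i)).natDegree ≤ d - 1 - i := by
    refine (natDegree_C_mul_le _ _).trans ?_
    refine natDegree_pow_le.trans ?_
    have := natDegree_cm q1 p1 q2 p2
    nlinarith
  have h2 : (cn q1 p1 q2 p2 ^ i).natDegree ≤ i := by
    refine natDegree_pow_le.trans ?_
    have := natDegree_cn q1 p1 q2 p2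
    nlinarith
  omega

lemma Fp_eval (d : ℕ) (f : ℕ → ℤ) (q1 p1 q2 p2 m n : ℤ)
    (hD : (q1 * p2 - q2 * p1) * (q1 * p2 - q2 * p1) = 1) (hQ : m * q1 + n * q2 ≠ 0) :
    (Fp d f q1 p1 q2 p2).eval (((m * p1 + n * p2 : ℤ) : ℝ) / ((m * q1 + n * q2 : ℤ) : ℝ))
      * ((m * q1 + n * q2 : ℤ) : ℝ) ^ (d - 1) = ((hom d f m n : ℤ) : ℝ) := by
  have hQr : ((m * q1 + n * q2 : ℤ) : ℝ) ≠ 0 := by exact_mod_cast hQ
  have hDr : ((q1 * p2 - q2 * p1 : ℤ) : ℝ) * ((q1 * p2 - q2 * p1 : ℤ) : ℝ) = 1 := by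
    exact_mod_cast hD
  set Q : ℝ := ((m * q1 + n * q2 : ℤ) : ℝ) with hQd
  set P : ℝ := ((m * p1 + n * p2 : ℤ) : ℝ) with hPd
  have e1 : (cm q1 p1 q2 p2).eval (P / Q) = m / Q := by
    unfold cm
    simp only [eval_mul, eval_C, eval_sub, eval_X]
    have h1 : ((q1 * p2 - q2 * p1 : ℤ) : ℝ) * (p2 * Q - q2 * P) = m := by
      have : (p2 : ℝ) * Q - q2 * P = m * ((q1 * p2 - q2 * p1 : ℤ) : ℝ) := by
        rw [hQd, hPd]; push_cast; ring
      rw [this]
      linear_combination (m:ℝ) * hDr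
    rw [eq_div_iff hQr]
    rw [← h1]
    field_simp
  have e2 : (cn q1 p1 q2 p2).eval (P / Q) = n / Q := by
    unfold cn
    simp only [eval_mul, eval_C, eval_sub, eval_X]
    have h1 : ((q1 * p2 - q2 * p1 : ℤ) : ℝ) * (q1 * P - p1 * Q) = n := by
      have : (q1 : ℝ) * P - p1 * Q = n * ((q1 * p2 - q2 * p1 : ℤ) : ℝ) := by
        rw [hQd, hPd]; push_cast; ring
      rw [this]
      linear_combination (n:ℝ) * hDr
    rw [eq_div_iff hQr]
    rw [← h1]
    field_simp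
  unfold Fp hom
  rw [eval_finsetSum, sum_mul]
  push_cast
  apply sum_congr rfl
  intro i hi
  have hi' := mem_range.1 hi
  rw [eval_mul, eval_mul, eval_pow, eval_pow, eval_C, e1, e2, div_pow, div_pow]
  have h2 : Q ^ (d - 1) = Q ^ (d - 1 - i) * Q ^ i := by
    rw [← pow_add]; congr 1; omega
  rw [h2]
  field_simp

lemma hom_exists_ne (d : ℕ) (f : ℕ → ℤ) (h : ∃ i, i < d ∧ f i ≠ 0) :
    ∃ n : ℕ, n < d ∧ hom d f 1 (n : ℤ) ≠ 0 := by
  by_contra hcon
  push Not at hcon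
  obtain ⟨i, hi, hfi⟩ := h
  set P : ℤ[X] := ∑ i ∈ range d, C (f i) * X ^ i with hP
  have hdeg : P.natDegree < d := by
    have h1 : P.natDegree ≤ d - 1 := by
      rw [hP]
      apply natDegree_sum_le_of_forall_le
      intro j hj
      have := mem_range.1 hj
      refine (natDegree_C_mul_X_pow_le _ _).trans (by omega)
    omega
  have hev : ∀ n : ℕ, n < d → P.eval (n : ℤ) = 0 := by
    intro n hn
    have h1 := hcon n hn
    rw [hP, eval_finsetSum, ← h1]
    unfold hom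
    apply sum_congr rfl
    intro j _
    simp
  have hP0 : P = 0 := by
    apply Polynomial.eq_zero_of_natDegree_lt_card_of_eval_eq_zero P
      (f := fun k : Fin d => ((k : ℕ) : ℤ))
    · intro x y hxy
      have : ((x : ℕ) : ℤ) = ((y : ℕ) : ℤ) := hxy
      exact Fin.ext (by exact_mod_cast this)
    · intro k
      exact hev k k.2
    · simpa using hdeg
  have h2 : P.coeff i = f i := by
    rw [hP, finsetSum_coeff]
    simp only [coeff_C_mul_X_pow]
    rw [sum_ite_eq (range d) i f]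
    simp [hi]
  rw [hP0] at h2
  simp at h2
  exact hfi h2.symm

/-- A polynomial with too many zeros. -/
lemma eq_zero_of_zeros (H : ℝ[X]) (N : ℕ) (z : ℕ → ℝ) (hz : Set.InjOn z {n | n < N})
    (hH : ∀ n, n < N → H.eval (z n) = 0) (hd : H.natDegree < N) : H = 0 := by
  apply Polynomial.eq_zero_of_natDegree_lt_card_of_eval_eq_zero H
    (f := fun k : Fin N => z k)
  · intro x y hxy
    exact Fin.ext (hz x.2 y.2 hxy)
  · intro k
    exact hH k k.2
  · simpa using hd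

end Pool.Agent.Y412.LP
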