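import Pool.Agent.H332R2.Lit.Main
import Pool.Agent.H238R3.UL.Gap
import Pool.Agent.Y412.LP.Limit

set_option autoImplicit false

/-!
# Progressions in the exceptional set, badly approximable `α`
-/

namespace Pool.Agent.Y412.LP

open Filter Topology Pool.Agent.H332R2.Lit Pool.Agent.H238R3.UL

/-- Progressions with sufficiently many terms, in terms of all parameters. -/
theorem prog_aux (α β θ γ ε δ : ℝ) (d A M S S' N : ℕ) (B T : ℝ) (hε : 0 < ε) (hδ : 0 < δ)
    (hd : 1 ≤ d) (hA : 1 / δ ≤ A) (hM : A + 2 * d ≤ M) (hB1 : 1 ≤ B)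
    (hB : (2 * (M:ℝ)) ^ 2 / (2 * ε) ≤ B) (hT1 : 1 ≤ T) (hTN : T ≤ N - B) (hS' : 1 ≤ S')
    (hSS : S' ^ (d + 1) < (S + 1) ^ d) (hT : 2 * (d * (S * (M:ℝ) ^ (d - 1))) < T)
    (hS1 : 2 * (B * ((d + 1) * (M:ℝ) ^ d)) ≤ S')
    (hα' : ∀ᶠ q : ℕ in atTop, δ ≤ (q : ℝ) * |q * α - round (q * α)|)
    (hθ : ∀ e : ℕ, 1 ≤ e → (e:ℝ) ≤ M * B ^ 2 → ∀ U V : ℤ, (e : ℝ) * θ ≠ U + V * α) :
    ∃ l : ℕ, l < N ∧ ∃ᶠ q : ℕ in atTop, (q : ℝ) * |q * α - round (q * α)|
        * |(q * (β + l * θ) - γ) - round (q * (β + l * θ) - γ)| < ε := by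
  classical
  have hN1 : 1 ≤ N := by
    have : (1:ℝ) ≤ N := by linarith
    exact_mod_cast this
  have hM1 : (1:ℝ) ≤ M := by
    have : 1 ≤ M := by omega
    exact_mod_cast this
  by_contra hcon
  push Not at hcon
  have hev : ∀ᶠ q : ℕ in atTop, ∀ l ∈ Finset.range N, ε ≤ (q : ℝ) * |q * α - round (q * α)|
        * |(q * (β + l * θ) - γ) - round (q * (β + l * θ) - γ)| := by
    rw [Filter.eventually_all_finset]
    intro l hl
    exact hcon l (Finset.mem_range.1 hl)
  -- `α` is irrational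
  have hα : Irrational α := by
    by_contra hr
    obtain ⟨r, hr⟩ : ∃ r : ℚ, (r:ℝ) = α := by
      unfold Irrational at hr
      push Not at hr
      exact hr
    obtain ⟨Q0, hQ0⟩ := eventually_atTop.1 hα'
    have h1 := hQ0 (r.den * (Q0+1)) (by nlinarith [r.pos])
    have h2 : |(((r.den * (Q0+1) : ℕ)) : ℝ) * α - round ((((r.den * (Q0+1) : ℕ)) : ℝ) * α)| = 0 := by
      have h3 : (((r.den * (Q0+1) : ℕ)) : ℝ) * α = ((r.num * (Q0+1) : ℤ) : ℝ) := by
        rw [← hr]
        have h4 : (r:ℝ) * r.den = r.num := by exact_mod_cast Rat.mul_den_eq_num r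
        push_cast
        rw [← h4]; ring
      rw [h3, round_intCast]; simp
    rw [h2] at h1
    simp at h1
    linarith
  obtain ⟨q, p, a, hq0, hq1, hqk, ha1, hqr, hpr, hsgn, hdet, hale⟩ := cf_data hα
  have har : ∀ k, (1:ℝ) ≤ a k := fun k => by exact_mod_cast ha1 k
  have hdec : ∀ k, |(q (k+1):ℝ) * α - p (k+1)| ≤ |(q k:ℝ) * α - p k| := by
    intro k
    have h1 := hale k
    have h2 := har k
    nlinarith [abs_nonneg ((q (k+1):ℝ) * α - p (k+1))]
  have hqd : ∀ k, (q (k+1) : ℝ) * |q k * α - p k| ≤ 1 := by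
    intro k
    have h1 := hdet k
    have h2 : (0:ℝ) ≤ (q k : ℝ) * |q (k+1) * α - p (k+1)| :=
      mul_nonneg (by exact_mod_cast hq0 _) (abs_nonneg _)
    linarith
  have hqle : ∀ k, q (k+1) ≤ q (k+2) := by
    intro k
    have h5 := hqr k
    have h6 := hq0 k
    have h7 := ha1 k
    have h8 := hq0 (k+1)
    nlinarith
  -- the partial quotients are bounded
  have hqt : Tendsto (fun k => (q (k+1)).toNat) atTop atTop := by
    rw [tendsto_atTop]
    intro m
    filter_upwards [eventually_ge_atTop m] with k hk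
    have := hqk (k+1)
    push_cast at this
    omega
  have hcast : ∀ k, (((q (k+1)).toNat : ℕ) : ℝ) = (q (k+1) : ℝ) := by
    intro k
    have h1 : (((q (k+1)).toNat : ℕ) : ℤ) = q (k+1) := Int.toNat_of_nonneg (hq0 _)
    exact_mod_cast h1
  have haA : ∀ᶠ k in atTop, a k ≤ A := by
    filter_upwards [hqt.eventually hα'] with k hk
    rw [hcast] at hk
    have h2 : |(q (k+1):ℝ) * α - round ((q (k+1):ℝ) * α)| ≤ |(q (k+1):ℝ) * α - p (k+1)| :=
      round_le _ _
    have h4 : (a k : ℝ) * q (k+1) ≤ q (k+1+1) := by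
      have h5 := hqr k
      have h6 := hq0 k
      have : a k * q (k+1) ≤ q (k+2) := by linarith
      exact_mod_cast this
    have h7 := hqd (k+1)
    have h8 : (0:ℝ) ≤ q (k+1) := by exact_mod_cast hq0 _
    have h9 : (a k : ℝ) * δ ≤ 1 := by
      calc (a k : ℝ) * δ ≤ a k * (q (k+1) * |q (k+1) * α - round (q (k+1) * α)|) := by
            have := har k
            gcongr
        _ = (a k * q (k+1)) * |q (k+1) * α - round (q (k+1) * α)| := by ring
        _ ≤ q (k+1+1) * |q (k+1) * α - p (k+1)| := by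
            apply mul_le_mul h4 h2 (abs_nonneg _)
            exact_mod_cast hq0 _
        _ ≤ 1 := h7
    have h10 : (a k : ℝ) ≤ 1 / δ := by
      rw [le_div_iff₀ hδ]; exact h9
    exact_mod_cast h10.trans hA
  -- good approximations
  set Pr : ℤ → ℕ → ℤ → Prop := fun Q b c =>
    1 ≤ b ∧ (b:ℝ) ≤ B ∧ |(b:ℝ) * ((Q:ℝ) * θ) - c| ≤ 1 / T with hPr
  have hex : ∀ Q : ℤ, ∃ (b : ℕ) (c : ℤ), Pr Q b c ∨ ¬ ∃ (b : ℕ) (c : ℤ), Pr Q b c := by
    intro Q
    by_cases hQ : ∃ (b : ℕ) (c : ℤ), Pr Q b c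
    · obtain ⟨b, c, hbc⟩ := hQ
      exact ⟨b, c, Or.inl hbc⟩
    · exact ⟨0, 0, Or.inr hQ⟩
  choose b c hbc using hex
  obtain ⟨Q0, hQ0⟩ := eventually_atTop.1 hev
  obtain ⟨K0, hK0⟩ := eventually_atTop.1 (hqt.eventually (eventually_ge_atTop Q0))
  obtain ⟨K1, hK1⟩ := eventually_atTop.1 haA
  set K := max K0 K1 with hK
  have hvec : ∀ k m n : ℕ, m ≤ M → n ≤ M → 1 ≤ m + n →
      Pr (m * q (K + k + 1) + n * q (K + k + 1 + 1)) (b (m * q (K + k + 1) + n * q (K + k + 1 + 1)))
        (c (m * q (K + k + 1) + n * q (K + k + 1 + 1))) := by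
    intro k m n hm hn hmn
    set Q : ℤ := m * q (K + k + 1) + n * q (K + k + 1 + 1) with hQ
    rcases hbc Q with h1 | h1
    · exact h1
    exfalso
    apply h1
    have hmr : (0:ℝ) ≤ m := by positivity
    have hnr : (0:ℝ) ≤ n := by positivity
    have hmz : (0:ℤ) ≤ m := by positivity
    have hnz : (0:ℤ) ≤ n := by positivity
    have hmMr : (m:ℝ) ≤ M := by exact_mod_cast hm
    have hnMr : (n:ℝ) ≤ M := by exact_mod_cast hn
    have hmnz : (1:ℤ) ≤ (m:ℤ) + n := by exact_mod_cast hmn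
    have hQge : q (K + k + 1) ≤ Q := by
      have h2 := hqle (K + k)
      have h3 := hq0 (K + k + 1)
      have h2' : q (K + k + 1) ≤ q (K + k + 1 + 1) := h2
      rw [hQ]
      nlinarith
    have hQpos : 0 < Q := by
      have := hq1 (K + k)
      omega
    have hQr : (0:ℝ) < Q := by exact_mod_cast hQpos
    have hQn : ((Q.toNat : ℕ) : ℝ) = Q := by
      have : ((Q.toNat : ℕ) : ℤ) = Q := Int.toNat_of_nonneg hQpos.le
      exact_mod_cast this
    have hQ0' : Q0 ≤ Q.toNat := by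
      have h2 := hK0 (K + k) (by omega)
      have h3 : (q (K + k + 1)).toNat ≤ Q.toNat := Int.toNat_le_toNat hQge
      omega
    have hlow := hQ0 Q.toNat hQ0'
    rw [hQn] at hlow
    have hXle : (Q:ℝ) * |(Q:ℝ) * α - round ((Q:ℝ) * α)| ≤ (2 * (M:ℝ)) ^ 2 := by
      have g1 : |(Q:ℝ) * α - round ((Q:ℝ) * α)|
          ≤ |(Q:ℝ) * α - ((m * p (K + k + 1) + n * p (K + k + 1 + 1) : ℤ) : ℝ)| := round_le _ _
      have g2 : |(Q:ℝ) * α - ((m * p (K + k + 1) + n * p (K + k + 1 + 1) : ℤ) : ℝ)|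
          ≤ (m + n) * |(q (K + k + 1):ℝ) * α - p (K + k + 1)| := by
        have e0 : (Q:ℝ) * α - ((m * p (K + k + 1) + n * p (K + k + 1 + 1) : ℤ) : ℝ)
            = m * ((q (K + k + 1):ℝ) * α - p (K + k + 1))
              + n * ((q (K + k + 1 + 1):ℝ) * α - p (K + k + 1 + 1)) := by
          rw [hQ]; push_cast; ring
        rw [e0]
        refine (abs_add_le _ _).trans ?_
        rw [abs_mul, abs_mul, Nat.abs_cast, Nat.abs_cast, add_mul]
        have := hdec (K + k + 1)
        gcongr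
      have g3 : (Q:ℝ) ≤ (m + n) * q (K + k + 1 + 1) := by
        have h2 : q (K + k + 1) ≤ q (K + k + 1 + 1) := hqle (K + k)
        have : Q ≤ ((m:ℤ) + n) * q (K + k + 1 + 1) := by
          rw [hQ, add_mul]
          nlinarith
        exact_mod_cast this
      have g4 := hqd (K + k + 1)
      have g5 : (0:ℝ) ≤ q (K + k + 1 + 1) := by exact_mod_cast hq0 _
      calc (Q:ℝ) * |(Q:ℝ) * α - round ((Q:ℝ) * α)|
          ≤ ((m + n) * q (K + k + 1 + 1)) * ((m + n) * |(q (K + k + 1):ℝ) * α - p (K + k + 1)|) := by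
            apply mul_le_mul g3 (g1.trans g2) (abs_nonneg _) (by positivity)
        _ = ((m:ℝ) + n) ^ 2 * (q (K + k + 1 + 1) * |(q (K + k + 1):ℝ) * α - p (K + k + 1)|) := by
            ring
        _ ≤ ((m:ℝ) + n) ^ 2 * 1 := by gcongr
        _ ≤ (2 * (M:ℝ)) ^ 2 := by
            rw [mul_one]
            gcongr
            linarith
    have h2M : (0:ℝ) < (2 * (M:ℝ)) ^ 2 := by positivity
    obtain ⟨b', c', hb1, hb2, hb3⟩ := gap ((Q:ℝ) * β - γ) ((Q:ℝ) * θ) (ε / (2 * (M:ℝ)) ^ 2) N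
      (by positivity) hN1 (by
        intro l hl
        have h2 := hlow l (Finset.mem_range.2 hl)
        have e1 : (Q : ℝ) * (β + l * θ) - γ = ((Q:ℝ) * β - γ) + l * ((Q:ℝ) * θ) := by ring
        rw [e1] at h2
        rw [div_le_iff₀ h2M]
        refine h2.trans ?_
        rw [mul_comm]
        gcongr)
    have hbB : (b':ℝ) ≤ B := by
      refine le_trans ?_ hB
      rw [le_div_iff₀ (by positivity)]
      have : 2 * (ε / (2 * (M:ℝ)) ^ 2) * b' * (2 * (M:ℝ)) ^ 2 ≤ 1 * (2 * (M:ℝ)) ^ 2 := by gcongr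
      have e1 : 2 * (ε / (2 * (M:ℝ)) ^ 2) * b' * (2 * (M:ℝ)) ^ 2 = b' * (2 * ε) := by
        field_simp
      linarith
    refine ⟨b', c', hb1, hbB, ?_⟩
    rw [le_div_iff₀ (by linarith)]
    have h3 : |(b':ℝ) * ((Q:ℝ) * θ) - c'| * T ≤ |(b':ℝ) * ((Q:ℝ) * θ) - c'| * (N - b') := by
      gcongr
      linarith
    linarith
  -- the structural theorem
  have hData : Data α θ (fun k => q (K + k + 1)) (fun k => p (K + k + 1))
      (fun k => a (K + k + 1)) b c A d M B T :=
    { hq := fun k => hq1 _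
      hqr := fun k => hqr (K + k + 1)
      hpr := fun k => hpr (K + k + 1)
      ha1 := fun k => ha1 _
      haA := fun k => hK1 _ (by omega)
      hdet := by
        intro k
        have hdetz : ∀ j, q (j+1) * p j - q j * p (j+1) = 1 ∨ q (j+1) * p j - q j * p (j+1) = -1 := by
          intro j
          have h1 := hdet j
          have h2 := hsgn j
          have h3 : ((q (j+1) * p j - q j * p (j+1) : ℤ) : ℝ)
              = q j * (q (j+1) * α - p (j+1)) - q (j+1) * (q j * α - p j) := by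
            push_cast; ring
          rcases mul_neg_iff.1 h2 with ⟨h4, h5⟩ | ⟨h4, h5⟩
          · right
            rw [abs_of_pos h4, abs_of_neg h5] at h1
            have : ((q (j+1) * p j - q j * p (j+1) : ℤ) : ℝ) = -1 := by
              rw [h3]; linarith
            exact_mod_cast this
          · left
            rw [abs_of_neg h4, abs_of_pos h5] at h1
            have : ((q (j+1) * p j - q j * p (j+1) : ℤ) : ℝ) = 1 := by
              rw [h3]; linarith
            exact_mod_cast this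
        have h1 := hdetz (K + k + 1)
        have e1 : K + (k + 1) + 1 = K + k + 1 + 1 := by omega
        simp only [e1]
        rcases h1 with h1 | h1
        · linear_combination (q (K + k + 1 + 1) * p (K + k + 1) - q (K + k + 1) * p (K + k + 1 + 1) + 1) * h1
        · linear_combination (q (K + k + 1 + 1) * p (K + k + 1) - q (K + k + 1) * p (K + k + 1 + 1) - 1) * h1
      hqt := by
        apply tendsto_atTop_mono (f := fun k : ℕ => (k : ℝ)) _ tendsto_natCast_atTop_atTop
        intro k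
        have := hqk (K + k + 1)
        have h2 : (k : ℤ) ≤ q (K + k + 1) := by push_cast at this; omega
        exact_mod_cast h2
      hdt := by
        rw [tendsto_zero_iff_abs_tendsto_zero]
        have h1 : Tendsto (fun k : ℕ => 1 / ((k : ℝ) + 1)) atTop (𝓝 0) :=
          tendsto_one_div_add_atTop_nhds_zero_nat
        apply squeeze_zero (fun k => abs_nonneg _) _ h1
        intro k
        have h2 := hqd (K + k + 1)
        have h3 := hqk (K + k + 1 + 1)
        have h4 : (k : ℤ) + 1 ≤ q (K + k + 1 + 1) := by push_cast at h3; omega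
        have h5 : (k : ℝ) + 1 ≤ q (K + k + 1 + 1) := by exact_mod_cast h4
        have h6 : (0:ℝ) < (k:ℝ) + 1 := by positivity
        rw [le_div_iff₀ h6]
        calc |(q (K + k + 1):ℝ) * α - p (K + k + 1)| * ((k:ℝ) + 1)
            ≤ |(q (K + k + 1):ℝ) * α - p (K + k + 1)| * q (K + k + 1 + 1) := by gcongr
          _ ≤ 1 := by rw [mul_comm]; exact h2
      hα := hα
      hb := by
        intro k m n hm hn hmn
        exact hvec k m n hm hn hmn
      hd := hd
      hM := hM
      hB := hB1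
      hT := hT1 }
  obtain ⟨e, he1, he2, U, V, hUV⟩ := hData.main S S' hS' hSS hT hS1
  exact hθ e he1 he2 U V hUV

end Pool.Agent.Y412.LP
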