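import Pool.Agent.Y412.LP.Poly

set_option autoImplicit false

/-!
# The rational function behind the good approximations
-/

namespace Pool.Agent.Y412.LP

open Finset Polynomial Filter Topology

/-- Convergents of `α` together with good rational approximations `c / b` of `Qθ`, where `Q` runs
through the small combinations of the denominators of neighbouring convergents. -/
structure Data (α θ : ℝ) (q p a : ℕ → ℤ) (b : ℤ → ℕ) (c : ℤ → ℤ) (A d M : ℕ) (B T : ℝ) :
    Prop where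
  hq : ∀ k, 1 ≤ q k
  hqr : ∀ k, q (k + 2) = a k * q (k + 1) + q k
  hpr : ∀ k, p (k + 2) = a k * p (k + 1) + p k
  ha1 : ∀ k, 1 ≤ a k
  haA : ∀ k, a k ≤ A
  hdet : ∀ k, (q k * p (k + 1) - q (k + 1) * p k) * (q k * p (k + 1) - q (k + 1) * p k) = 1
  hqt : Tendsto (fun k => (q k : ℝ)) atTop atTop
  hdt : Tendsto (fun k => (q k : ℝ) * α - p k) atTop (𝓝 0)
  hα : Irrational α
  hb : ∀ k m n : ℕ, m ≤ M → n ≤ M → 1 ≤ m + n →
    1 ≤ b (m * q k + n * q (k + 1)) ∧ (b (m * q k + n * q (k + 1)) : ℝ) ≤ B ∧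
    |b (m * q k + n * q (k + 1)) * (((m * q k + n * q (k + 1) : ℤ) : ℝ) * θ)
      - c (m * q k + n * q (k + 1))| ≤ 1 / T
  hd : 1 ≤ d
  hM : A + 2 * d ≤ M
  hB : 1 ≤ B
  hT : 1 ≤ T

section

variable {α θ : ℝ} {q p a : ℕ → ℤ} {b : ℤ → ℕ} {c : ℤ → ℤ} {A d M : ℕ} {B T : ℝ}

/-- the slope of the vector `m w_k + n w_(k+1)` -/
noncomputable def slope (q p : ℕ → ℤ) (k : ℕ) (m n : ℤ) : ℝ :=
  ((m * p k + n * p (k + 1) : ℤ) : ℝ) / ((m * q k + n * q (k + 1) : ℤ) : ℝ)

lemma Data.Qpos (h : Data α θ q p a b c A d M B T) (k : ℕ) (m n : ℕ) (hmn : 1 ≤ m + n) :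
    0 < (m : ℤ) * q k + n * q (k + 1) := by
  have h1 := h.hq k
  have h2 := h.hq (k + 1)
  have h3 : (1 : ℤ) ≤ (m : ℤ) + n := by exact_mod_cast hmn
  have h4 : (0 : ℤ) ≤ (m : ℤ) := by positivity
  have h5 : (0 : ℤ) ≤ (n : ℤ) := by positivity
  nlinarith

/-- the auxiliary forms of one window -/
lemma Data.window (h : Data α θ q p a b c A d M B T) (S S' : ℕ) (hS' : 1 ≤ S')
    (hSS : S' ^ (d + 1) < (S + 1) ^ d) (hT1 : 2 * (d * (S * (M:ℝ) ^ (d - 1))) < T)
    (hS1 : 2 * (B * ((d + 1) * (M:ℝ) ^ d)) ≤ S') (k : ℕ) :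
    ∃ F R : ℝ[X], F ≠ 0 ∧ F.natDegree ≤ d - 1 ∧ R.natDegree ≤ d ∧
      ∀ m n : ℕ, m ≤ M → n ≤ M → 1 ≤ m + n →
        F.eval (slope q p k m n) * c (m * q k + n * q (k + 1))
          = b (m * q k + n * q (k + 1)) * (((m * q k + n * q (k + 1) : ℤ) : ℝ)
            * R.eval (slope q p k m n)) := by
  have hd := h.hd
  have hM := h.hM
  have hT := h.hT
  have hB := h.hB
  obtain ⟨f, g, hf0, hfg⟩ := exact d (q k * θ) (q (k + 1) * θ) S S' M B T hS' hSS (by omega)
    (by linarith) (by linarith) hT1 hS1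
  refine ⟨Fp d f (q k) (p k) (q (k + 1)) (p (k + 1)),
    Fp (d + 1) g (q k) (p k) (q (k + 1)) (p (k + 1)), ?_, natDegree_Fp _ _ _ _ _ _,
    natDegree_Fp _ _ _ _ _ _, ?_⟩
  · obtain ⟨n, hn, hn0⟩ := hom_exists_ne d f hf0
    intro hF
    have hQ : (1 : ℤ) * q k + (n : ℤ) * q (k + 1) ≠ 0 := by
      have := h.Qpos k 1 n (by omega)
      push_cast at this
      exact this.ne'
    have h1 := Fp_eval d f (q k) (p k) (q (k + 1)) (p (k + 1)) 1 n (h.hdet k) hQ
    rw [hF] at h1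
    simp only [eval_zero, zero_mul] at h1
    exact hn0 (by exact_mod_cast h1.symm)
  · intro m n hm hn hmn
    have hQ := (h.Qpos k m n hmn).ne'
    have h1 := Fp_eval d f (q k) (p k) (q (k + 1)) (p (k + 1)) m n (h.hdet k) hQ
    have h2 := Fp_eval (d + 1) g (q k) (p k) (q (k + 1)) (p (k + 1)) m n (h.hdet k) hQ
    obtain ⟨hb1, hb2, hb3⟩ := h.hb k m n hm hn hmn
    have h3 := hfg m n (b (m * q k + n * q (k + 1))) (c (m * q k + n * q (k + 1))) hm hn hb2
      (by
        have e : (m:ℝ) * (q k * θ) + n * (q (k + 1) * θ)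
            = ((m * q k + n * q (k + 1) : ℤ) : ℝ) * θ := by push_cast; ring
        rw [e]
        exact hb3)
    have h4 : ((hom d f (m:ℤ) n : ℤ) : ℝ) * c (m * q k + n * q (k + 1))
        = b (m * q k + n * q (k + 1)) * ((hom (d + 1) g (m:ℤ) n : ℤ) : ℝ) := by exact_mod_cast h3
    rw [← h1, ← h2] at h4
    have hQr : (((m:ℤ) * q k + n * q (k + 1) : ℤ) : ℝ) ≠ 0 := by exact_mod_cast hQ
    have e2 : d + 1 - 1 = (d - 1) + 1 := by omega
    rw [e2, pow_succ] at h4
    have h5 : (((m:ℤ) * q k + n * q (k + 1) : ℤ) : ℝ) ^ (d - 1) ≠ 0 := pow_ne_zero _ hQr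
    apply mul_left_cancel₀ h5
    unfold slope
    linear_combination h4

lemma Data.slope_inj (h : Data α θ q p a b c A d M B T) (k : ℕ) {n n' : ℕ}
    (hnn : slope q p k 1 n = slope q p k 1 n') : n = n' := by
  unfold slope at hnn
  have h1 := h.Qpos k 1 n (by omega)
  have h2 := h.Qpos k 1 n' (by omega)
  push_cast at h1 h2
  have h1r : (((1:ℤ) * q k + n * q (k + 1) : ℤ) : ℝ) ≠ 0 := by exact_mod_cast h1.ne'
  have h2r : (((1:ℤ) * q k + n' * q (k + 1) : ℤ) : ℝ) ≠ 0 := by exact_mod_cast h2.ne'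
  rw [div_eq_div_iff h1r h2r] at hnn
  have h3 : ((1:ℤ) * p k + n * p (k + 1)) * (1 * q k + n' * q (k + 1))
      = (1 * p k + n' * p (k + 1)) * (1 * q k + n * q (k + 1)) := by exact_mod_cast hnn
  have h4 : ((n:ℤ) - n') * (q k * p (k + 1) - q (k + 1) * p k) = 0 := by linear_combination h3
  rcases mul_eq_zero.1 h4 with h5 | h5
  · have : (n:ℤ) = n' := by linarith
    exact_mod_cast this
  · have := h.hdet k
    rw [h5] at this
    norm_num at this

/-- Neighbouring windows give the same rational function. -/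
lemma Data.link (h : Data α θ q p a b c A d M B T) (k : ℕ) (F R F' R' : ℝ[X])
    (hF : F.natDegree ≤ d - 1) (hR : R.natDegree ≤ d) (hF' : F'.natDegree ≤ d - 1)
    (hR' : R'.natDegree ≤ d)
    (h1 : ∀ m n : ℕ, m ≤ M → n ≤ M → 1 ≤ m + n →
        F.eval (slope q p k m n) * c (m * q k + n * q (k + 1))
          = b (m * q k + n * q (k + 1)) * (((m * q k + n * q (k + 1) : ℤ) : ℝ)
            * R.eval (slope q p k m n)))
    (h2 : ∀ m n : ℕ, m ≤ M → n ≤ M → 1 ≤ m + n →
        F'.eval (slope q p (k + 1) m n) * c (m * q (k + 1) + n * q (k + 1 + 1))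
          = b (m * q (k + 1) + n * q (k + 1 + 1)) * (((m * q (k + 1) + n * q (k + 1 + 1) : ℤ) : ℝ)
            * R'.eval (slope q p (k + 1) m n))) :
    F * R' = F' * R := by
  have hd := h.hd
  have hM := h.hM
  obtain ⟨t, ht⟩ : ∃ t : ℕ, (t : ℤ) = a k := ⟨(a k).toNat, Int.toNat_of_nonneg (by
    have := h.ha1 k; omega)⟩
  have htA : t ≤ A := by
    have := h.haA k
    rw [← ht] at this
    exact_mod_cast this
  have hH : F * R' - F' * R = 0 := by
    apply eq_zero_of_zeros _ (2 * d) (fun j => slope q p k 1 (t + j : ℕ))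
    · intro x _ y _ hxy
      have := h.slope_inj k hxy
      omega
    · intro j hj
      have g1 := h1 1 (t + j) (by omega) (by omega) (by omega)
      have g2 := h2 j 1 (by omega) (by omega) (by omega)
      obtain ⟨hb1, -, -⟩ := h.hb k 1 (t + j) (by omega) (by omega) (by omega)
      have hQ := h.Qpos k 1 (t + j) (by omega)
      have eQ : (j:ℤ) * q (k + 1) + (1:ℕ) * q (k + 1 + 1)
          = (1:ℕ) * q k + ((t + j : ℕ) : ℤ) * q (k + 1) := by
        have := h.hqr k
        rw [show k + 1 + 1 = k + 2 by rfl, this, ← ht]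
        push_cast; ring
      have eP : (j:ℤ) * p (k + 1) + (1:ℕ) * p (k + 1 + 1)
          = (1:ℕ) * p k + ((t + j : ℕ) : ℤ) * p (k + 1) := by
        have := h.hpr k
        rw [show k + 1 + 1 = k + 2 by rfl, this, ← ht]
        push_cast; ring
      have es : slope q p (k + 1) j (1:ℕ) = slope q p k (1:ℕ) ((t + j : ℕ) : ℤ) := by
        unfold slope
        rw [eQ, eP]
      rw [eQ, es] at g2
      have es1 : slope q p k (1:ℕ) ((t + j : ℕ) : ℤ) = slope q p k 1 ((t + j : ℕ) : ℤ) := by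
        norm_num
      rw [es1] at g1 g2
      set z := slope q p k 1 ((t + j : ℕ) : ℤ) with hz
      set Q : ℤ := (1:ℕ) * q k + ((t + j : ℕ) : ℤ) * q (k + 1) with hQd
      have hQr : (Q : ℝ) ≠ 0 := by exact_mod_cast hQ.ne'
      have hbr : (b Q : ℝ) ≠ 0 := by
        have : (1:ℝ) ≤ b Q := by exact_mod_cast hb1
        linarith
      rw [eval_sub, eval_mul, eval_mul]
      have h3 : (b Q : ℝ) * (Q * (F.eval z * R'.eval z - F'.eval z * R.eval z)) = 0 := by
        linear_combination (-F.eval z) * g2 + F'.eval z * g1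
      rcases mul_eq_zero.1 h3 with h4 | h4
      · exact absurd h4 hbr
      · rcases mul_eq_zero.1 h4 with h5 | h5
        · exact absurd h5 hQr
        · exact h5
    · have h3 : (F * R').natDegree ≤ 2 * d - 1 := natDegree_mul_le.trans (by omega)
      have h4 : (F' * R).natDegree ≤ 2 * d - 1 := natDegree_mul_le.trans (by omega)
      have h5 := natDegree_sub_le (F * R') (F' * R)
      have h6 : max (F * R').natDegree (F' * R).natDegree ≤ 2 * d - 1 := max_le h3 h4
      omega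
  exact sub_eq_zero.1 hH

end

end Pool.Agent.Y412.LP
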